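import Pool.Agent.N496.CV.All
import Pool.Agent.N496.CV.Euler

/-!
# The Singer-Hopf inequality for the codimension one Poincare duality subgroups in subdivided flag homology spheres

Let the flag complex of the graph `H` be a homology manifold with the homology of the sphere of dimension `n - 1`, both
over the reals and over the field with two elements (for example a flag triangulation of the sphere of dimension
`n - 1`), `n = 2 d` or `n = 2 d + 1`, `1 ≤ d`. Let `B` be a set of vertices such that the full subcomplex spanned by `B`
is properly coloured by `d + 1` colours (for example `B` empty). We show that there is an iterated edge subdivision `S`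
of `H` (`Sub H S`), in which the full subcomplex spanned by `B` is not changed and which is a homology sphere again,
such that the Singer-Hopf inequality `(-1)^d χ(K) ≥ 0` holds for every Poincare duality group `K` of type FL
(`PD K (2 * d)`), orientable or not, of dimension `2 d`, which is a subgroup of finite or infinite index of the kernel
`Γ` of `W S → (ℤ/2)^m`. The Euler characteristic is the alternating sum of the ranks of any finite free resolution.

For `n = 2 d + 1` these are all the Poincare duality subgroups of codimension one (of infinite index), for example the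
fundamental groups of all the `π_1`-injective closed aspherical `2 d`-manifolds in the closed aspherical
`(2 d + 1)`-manifold `M` with the fundamental group `Γ` and in its covers.
-/

set_option autoImplicit false

namespace Pool.Agent.Results.MP_9d0d86_gt.CodimensionOneSubgroups

open Pool.Agent.W907.SG Pool.Agent.W461.SGN Pool.Agent.N496.LT Pool.Agent.N496.CV
open Pool.Agent.TH652.Above (HSph)
open Pool.Agent.N504.RS.Two (HSph2)

/-- Let the flag complex of `H` be a homology manifold with the homology of the `(n-1)`-sphere over the reals and over
the field with two elements, `n = 2 d` or `n = 2 d + 1`, and let the full subcomplex spanned by the set `B` of vertices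
be properly coloured by `d + 1` colours. Then there is an iterated edge subdivision `S` of `H`, again a homology sphere
in both senses, which induces on `B` the same graph as `H`, such that the kernel `Γ` of `W S → (ℤ/2)^m` is torsion free
of finite index in the right-angled Coxeter group `W S` and for every subgroup `K` of `Γ`, of arbitrary index, which is a
Poincare duality group of dimension `2 d` (of type FL) `(-1)^d χ(K) ≥ 0`, for the Euler characteristic `χ(K)` computed
by any resolution `C` of `ℤ` by finitely generated free modules of finite length `q`. -/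
theorem result : ∀ (d n N : ℕ) (H : SimpleGraph (Fin N)), 1 ≤ d → (n = 2 * d ∨ n = 2 * d + 1) →
    HSph n H → HSph2 n H →
    ∀ (B : Set (Fin N)) (c : Fin N → Fin (d + 1)), (∀ u ∈ B, ∀ v ∈ B, H.Adj u v → c u ≠ c v) →
    ∃ (m : ℕ) (h : N ≤ m) (S : SimpleGraph (Fin m)), Sub H S ∧ HSph n S ∧ HSph2 n S ∧
      (∀ u ∈ B, ∀ v ∈ B, S.Adj (Fin.castLE h u) (Fin.castLE h v) ↔ H.Adj u v) ∧
      (th S).ker.FiniteIndex ∧ (∀ g ∈ (th S).ker, ∀ j : ℕ, 0 < j → g ^ j = 1 → g = 1) ∧
      ∀ K : Subgroup (W S), K ≤ (th S).ker → Nonempty (PD K (2 * d)) →
        ∀ (C : V7N.FreeRes K) (q : ℕ), (∀ i, q < i → C.r i = 0) →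
          0 ≤ (-1 : ℤ) ^ d * ∑ i ∈ Finset.range (q + 1), (-1 : ℤ) ^ i * (C.r i : ℤ) := by
  intro d n N H hd hn hS hS2 B c hc
  obtain ⟨m, h, S, h1, h2, h3, h4, h5⟩ :=
    Pool.Agent.N496.CV.rel_all Pool.Agent.N496.CV.main H hd hn hS hS2 B c hc
  refine ⟨m, h, S, h1, h2, h3, h4, inferInstance, fun g hg j hj hgj => Pool.Agent.N496.CV.tf' (Fin m) S g hg j hj hgj,
    fun K hK hP C q hq => ?_⟩
  obtain ⟨P⟩ := hP
  refine euler_sign C q d hq fun k hk => ?_
  rcases Nat.lt_or_gt_of_ne hk with hk | hk
  · exact pd_zero P k (2 * d - k) (by omega) (h5 K hK (2 * d - k) (by omega))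
  · exact h5 K hK k (by omega)

end Pool.Agent.Results.MP_9d0d86_gt.CodimensionOneSubgroups
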