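import Pool.Agent.N309.PD.Euler

/-!
# Positive cones of left orders and the Euler characteristic of closed 4-manifolds

Let `M` be a closed connected 4-manifold whose fundamental group `G` is left-ordered and generated by
positive elements `s_1, …, s_d`. If the positive cone `{g | 1 < g}` is connected in the Cayley graph
(or at least if the generators lie in one component of it), then `χ(M) ≥ 0`. In general
`χ(M) ≥ 2 - 2 c`, where `c` is the number of components of the positive cone which contain generators.
In particular the inequality of Hopf and Singer holds for closed aspherical 4-manifolds whose group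
has a left order with connected positive cone. The manifold enters only by its cellular chain complex
over the complex group algebra, so the result holds for Poincaré complexes of dimension 4.

Outline. The first `L²`-Betti number of `G` is at most `c - 1`: the paths in the positive cone between
the generators give relations in the augmentation ideal by Fox calculus, whose terms are supported on
`{g | 1 ≤ g}`, and the level inequality `N309.LO.level_le` for the von Neumann dimensions of kernels
reduces the bound to the parts of the relations at `1`. By duality the same holds in degree `3`.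
-/

set_option autoImplicit false

open scoped Matrix

universe u

namespace Pool.Agent.Results.MP_9d0d86_gt.ConnectedConesDimFour

/-- The total order of `G` is left-invariant. -/
def LeftInvariant (G : Type u) [Group G] [LinearOrder G] : Prop :=
  ∀ g a b : G, a ≤ b → g * a ≤ g * b

/-- `g` and `h` can be joined by a path in the Cayley graph of `G` with respect to the `s j` (edges
from `x` to `x s_j`) all whose vertices are in the positive cone `{x | 1 < x}`. -/
def JoinedInPositiveCone {G : Type u} [Group G] [LinearOrder G] {d : ℕ} (s : Fin d → G)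
    (g h : G) : Prop :=
  Relation.ReflTransGen (fun x y : G => 1 < x ∧ 1 < y ∧ ∃ j, y = x * s j ∨ x = y * s j) g h

/-- The matrices of a complex of finitely generated free left modules over the complex group algebra
of `G`: the module in degree `i` consists of the row vectors with `r i` entries, and the boundary
operator from degree `i + 1` to degree `i` is the right multiplication by the matrix `D i`. The dual
complex consists of the column vectors, with the left multiplication by `D i` from degree `i` to
degree `i + 1`. -/
abbrev Matrices (G : Type u) [Group G] (r : ℕ → ℕ) :=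
  ∀ i, Matrix (Fin (r (i + 1))) (Fin (r i)) (MonoidAlgebra ℂ G)

/-- The complex is exact in degree `i + 1`. -/
def IsExactAt {G : Type u} [Group G] {r : ℕ → ℕ} (D : Matrices G r) (i : ℕ) : Prop :=
  ∀ x : Fin (r (i + 1)) → MonoidAlgebra ℂ G, x ᵥ* D i = 0 → ∃ y, y ᵥ* D (i + 1) = x

/-- The dual complex is exact in degree `i + 1`. -/
def IsDualExactAt {G : Type u} [Group G] {r : ℕ → ℕ} (D : Matrices G r) (i : ℕ) : Prop :=
  ∀ x : Fin (r (i + 1)) → MonoidAlgebra ℂ G, D (i + 1) *ᵥ x = 0 → ∃ y, D i *ᵥ y = x

/-- The sum of the coefficients of an element of the group algebra. -/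
noncomputable def aug {G : Type u} [Group G] (α : MonoidAlgebra ℂ G) : ℂ :=
  α.coeff.sum fun _ c => c

/-- The homology of the complex in degree `0` is the trivial module `ℂ`, by means of the functional
which maps `x` to the sum of the `aug (x i) * a i`. -/
def HasAugmentation {G : Type u} [Group G] {r : ℕ → ℕ} (D : Matrices G r) : Prop :=
  ∃ a : Fin (r 0) → ℂ, a ≠ 0 ∧ ∀ x : Fin (r 0) → MonoidAlgebra ℂ G,
    (∃ y, y ᵥ* D 0 = x) ↔ ∑ i, aug (x i) * a i = 0

/-- The cokernel of `D i` in the dual complex has dimension one over `ℂ`. -/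
def HasCoaugmentation {G : Type u} [Group G] {r : ℕ → ℕ} (D : Matrices G r) (i : ℕ) : Prop :=
  ∃ φ : (Fin (r (i + 1)) → MonoidAlgebra ℂ G) →ₗ[ℂ] ℂ, φ ≠ 0 ∧
    ∀ x, (∃ y, D i *ᵥ y = x) ↔ φ x = 0

/-- The properties used of the cellular chain complex of the universal covering of a closed connected
4-manifold (or Poincaré complex of dimension 4) with fundamental group `G`: length `4`, the homology
is `ℂ` in degree `0` and zero in degree `1`, and the cohomology of the dual complex is
one-dimensional in degree `4` and zero in degree `3`. -/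
structure IsFourManifoldComplex {G : Type u} [Group G] {r : ℕ → ℕ} (D : Matrices G r) : Prop where
  comp : ∀ i, D (i + 1) * D i = 0
  length : ∀ i, 4 < i → r i = 0
  exact : IsExactAt D 0
  augmentation : HasAugmentation D
  coexact : IsDualExactAt D 2
  coaugmentation : HasCoaugmentation D 3

/-- The Euler characteristic. -/
def eulerCharacteristic (r : ℕ → ℕ) : ℤ := r 0 - r 1 + r 2 - r 3 + r 4

/-- **Positive cones and the Euler characteristic of closed 4-manifolds.** Let the nontrivial group
`G` be generated by the elements `s_1, …, s_d`, which are positive for a left-invariant total order of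
`G`. Let `T` be a set of indices such that each `s_a` can be joined with some `s_t`, `t ∈ T`, inside the
positive cone of the Cayley graph. Let `D` be the chain complex of the universal covering of a closed
4-manifold with fundamental group `G`.

1. The Euler characteristic is at least `2 - 2 |T|`. So it is nonnegative if `|T| = 1`, for example if
the positive cone is connected.
2. If the complex is exact in all positive degrees (the manifold is aspherical), the Euler
characteristic is at least `4 - 2 d`. -/
theorem result (G : Type u) [Group G] [Nontrivial G] [LinearOrder G] (hG : LeftInvariant G) (d : ℕ)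
    (s : Fin d → G) (hpos : ∀ j, 1 < s j) (hs : Subgroup.closure (Set.range s) = ⊤)
    (T : Finset (Fin d)) (hT : ∀ a, ∃ t ∈ T, JoinedInPositiveCone s (s a) (s t))
    (r : ℕ → ℕ) (D : Matrices G r) (hD : IsFourManifoldComplex D) :
    2 - 2 * (T.card : ℤ) ≤ eulerCharacteristic r ∧
    ((∀ i, IsExactAt D i) → 4 - 2 * (d : ℤ) ≤ eulerCharacteristic r) := by
  classical
  obtain ⟨a, ha0, ha⟩ := hD.augmentation
  have hA : ∀ x, (∃ y, y ᵥ* D 0 = x) ↔ N309.PD.augF a x = 0 := by
    intro x
    rw [ha, N309.PD.augF_apply]
    simp only [N309.PD.augm_eq]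
    rfl
  have hφ : (N309.PD.augF a : (Fin (r 0) → MonoidAlgebra ℂ G) →ₗ[ℂ] ℂ) ≠ 0 :=
    N309.PD.augF_ne a ha0
  have hφ' := N309.PD.aug_of hφ _ hA
  obtain ⟨ψ, hψ0, hψ⟩ := hD.coaugmentation
  have hψ' := N309.PD.dual_aug (D 3) ψ hψ
  have hψ0' := N309.PD.dualF_ne hψ0
  have hψ'' := N309.PD.aug_of hψ0' _ hψ'
  have hZ : N309.PD.NZ G := N309.PD.nz_left hG
  have k0 : ∀ F, N309.PD.opM (D 0) F = 0 → F = 0 :=
    N309.PD.ker_zero hZ (D 0) _ hφ' hA
  have k0' : ∀ F, N309.PD.opM (N309.PD.adjM (D 3)) F = 0 → F = 0 :=
    N309.PD.ker_zero hZ _ _ hψ'' hψ'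
  have hex := N309.PD.dual_exact (D 3) (D 2) hD.coexact
  have b0 := N309.PD.bt_zero D k0
  have b4 := N309.PD.bt_top D 3 k0'
  have b2 := N309.PD.bt_nonneg D 2
  have he := N309.PD.euler D hD.comp 4 (hD.length 5 (by norm_num))
  simp only [Finset.sum_range_succ, Finset.sum_range_zero] at he
  have hcard1 : ((Fintype.card (Fin (r 0)) : ℕ) : ℝ) = (r 0 : ℝ) := by rw [Fintype.card_fin]
  have hcard2 : ((Fintype.card (Fin (r 4)) : ℕ) : ℝ) = (r 4 : ℝ) := by
    rw [Fintype.card_fin]
  have hcard3 : ((Fintype.card (Fin d) : ℕ) : ℝ) = (d : ℝ) := by rw [Fintype.card_fin]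
  have key : ∀ c : ℝ, N309.PD.bt D 1 ≤ c → N309.PD.bt D 3 ≤ c →
      -(2 * c) ≤ ((eulerCharacteristic r : ℤ) : ℝ) := by
    intro c h1 h3
    unfold eulerCharacteristic
    push_cast
    have b4' : N309.PD.bt D 4 = 0 := b4
    rw [b0, b4'] at he
    linarith
  refine ⟨?_, ?_⟩
  · have hT' : ∀ a, ∃ t ∈ T, Relation.ReflTransGen (N309.PD.Adj s) (s a) (s t) := hT
    have e1 : N309.PD.bt D 1 ≤ (T.card : ℝ) - 1 := by
      apply N309.PD.bt_one_le D hD.comp k0
      have h := N309.PD.ker_one_cone hG (D 0) (D 1) _ hφ' hA hD.exact s hpos hs T hT'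
      rw [hcard1] at h
      linarith
    have e3 : N309.PD.bt D 3 ≤ (T.card : ℝ) - 1 := by
      apply N309.PD.bt_cotop D hD.comp 2 k0'
      have h := N309.PD.ker_one_cone hG (N309.PD.adjM (D 3)) (N309.PD.adjM (D 2)) _ hψ'' hψ'
        hex s hpos hs T hT'
      rw [hcard2] at h
      linarith
    have h := key _ e1 e3
    have h' : ((2 - 2 * (T.card : ℤ) : ℤ) : ℝ) ≤ ((eulerCharacteristic r : ℤ) : ℝ) := by
      push_cast
      linarith
    exact_mod_cast h'
  · intro hall
    have hnf : ¬ Function.Injective (FreeGroup.lift s) :=
      N309.PD.not_free r D hD.comp hall (N309.PD.augF a) hφ hA 2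
        (hD.length 5 (by norm_num)) ψ hψ0 hψ s hs
    have e1 : N309.PD.bt D 1 ≤ (d : ℝ) - 2 := by
      apply N309.PD.bt_one_le D hD.comp k0
      have h := N309.PD.ker_one hZ (D 0) (D 1) _ hφ' hA hD.exact s hs hnf
      rw [hcard1, hcard3] at h
      linarith
    have e3 : N309.PD.bt D 3 ≤ (d : ℝ) - 2 := by
      apply N309.PD.bt_cotop D hD.comp 2 k0'
      have h := N309.PD.ker_one hZ (N309.PD.adjM (D 3)) (N309.PD.adjM (D 2)) _ hψ'' hψ'
        hex s hs hnf
      rw [hcard2, hcard3] at h
      linarith
    have h := key _ e1 e3
    have h' : ((4 - 2 * (d : ℤ) : ℤ) : ℝ) ≤ ((eulerCharacteristic r : ℤ) : ℝ) := by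
      push_cast
      linarith
    exact_mod_cast h'

end Pool.Agent.Results.MP_9d0d86_gt.ConnectedConesDimFour
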