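import Pool.Agent.N500.HP6

/-!
# The Singer-Hopf sign in dimension six: curvature operator nonpositive on all hyperplanes

At a point of a Riemannian six-manifold where, for some `κ ≥ 0`, the curvature operator is at most
`-κ` on `Λ² H` for every hyperplane `H` of the tangent space `V` (equivalently on all degenerate
bivectors; nothing is assumed on the bivectors `X` with `X ∧ X ∧ X ≠ 0`), the Gauss-Bonnet-Chern
integrand is at most its value for constant curvature `-κ`. So a closed six-manifold with this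
property (`κ = 0`) at every point has `-χ ≥ 0`.

The condition allows one positive eigenvalue of the curvature operator. If the operator is at most
`-l` up to the multiple `l + m` of the square of a unit two-form `A` (for instance if `m ≥ -l` is an
eigenvalue with eigenvector `A` and the others are at most `-l`) and `|A(w, ·)|² ≥ s` for all unit
vectors `w`, then the condition holds with `κ = l - (l + m) (1 - s)`. Example: for an orthogonal
complex structure `J` and `1/7 < c < 1/5` the tensor `-R₀ + c K_J`,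
`K_J (x, y, z, w) = 2 ⟨Jx, y⟩⟨Jz, w⟩ + ⟨Jx, z⟩⟨Jy, w⟩ - ⟨Jx, w⟩⟨Jy, z⟩`, satisfies the condition with
`κ = 1 - 5 c > 0` although its operator has a positive eigenvalue.

The pointwise inequality for `κ` is from the starting library (`Pool/Agent/TH569/HP/`).
-/

set_option autoImplicit false

namespace Pool.Agent.Results.MP_9d0d86_gt.HyperplaneCondition

open Hopf6 MeasureTheory Pool.Agent.TH569.HP Pool.Agent.N500.HP6

/-- The curvature operator plus `κ` is nonpositive on `Λ² H` for every hyperplane `H`. -/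
def HyperLE {V : Type} [NormedAddCommGroup V] [InnerProductSpace ℝ V] (R : V → V → V → V → ℝ)
    (κ : ℝ) : Prop :=
  ∀ H : Submodule ℝ V, Module.finrank ℝ H = 5 → OpLE R κ H

/-- The curvature operator is at most `-l` plus `l + m` times the square of the two-form `A` of
norm at most one, and `|A(w, ·)|² ≥ s` for all unit vectors `w`. -/
structure OneForm {V : Type} [NormedAddCommGroup V] [InnerProductSpace ℝ V]
    (e : OrthonormalBasis (Fin 6) ℝ V) (R : V → V → V → V → ℝ) (l m s : ℝ)
    (A : V →ₗ[ℝ] V →ₗ[ℝ] ℝ) : Prop where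
  skew : ∀ x y, A y x = - A x y
  norm : ∑ a, ∑ b, A (e a) (e b) ^ 2 ≤ 2
  rank : ∀ w : V, ‖w‖ = 1 → s ≤ ∑ b, A w (e b) ^ 2
  bound : ∀ (n : ℕ) (x y : Fin n → V),
    ∑ i, ∑ j, (R (x i) (y i) (x j) (y j) + l * unitT (x i) (y i) (x j) (y j)) ≤
      (l + m) * (∑ i, A (x i) (y i)) ^ 2

/-- **The Singer-Hopf sign in dimension six** under the hyperplane condition. -/
theorem result :
    -- the pointwise inequality
    (∀ (V : Type) [NormedAddCommGroup V] [InnerProductSpace ℝ V]
      (e : OrthonormalBasis (Fin 6) ℝ V) (R : V → V → V → V → ℝ), AlgCurv R →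
      ∀ κ : ℝ, 0 ≤ κ → HyperLE R κ → Hopf6.gbc e R ≤ -(roundGB κ)) ∧
    -- one large eigenvalue with a nondegenerate eigenvector
    (∀ (V : Type) [NormedAddCommGroup V] [InnerProductSpace ℝ V]
      (e : OrthonormalBasis (Fin 6) ℝ V) (R : V → V → V → V → ℝ), AlgCurv R →
      ∀ (l m s : ℝ) (A : V →ₗ[ℝ] V →ₗ[ℝ] ℝ), OneForm e R l m s A → 0 ≤ l + m →
        0 ≤ l - (l + m) * (1 - s) →
        HyperLE R (l - (l + m) * (1 - s)) ∧
          Hopf6.gbc e R ≤ -(roundGB (l - (l + m) * (1 - s)))) ∧
    -- the example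
    (∀ (V : Type) [NormedAddCommGroup V] [InnerProductSpace ℝ V]
      (e : OrthonormalBasis (Fin 6) ℝ V) (J : V →ₗ[ℝ] V), IsOCS J → ∀ c : ℝ, 0 ≤ c → c ≤ 1 / 5 →
        AlgCurv (model J c) ∧ HyperLE (model J c) (1 - 5 * c) ∧
        Hopf6.gbc e (model J c) ≤ -(roundGB (1 - 5 * c)) ∧
        ∑ a, ∑ b, model J c (e a) (J (e a)) (e b) (J (e b)) = 84 * c - 12) ∧
    -- the integrated form
    (∀ (M : Type) [MeasurableSpace M] (μ : Measure M) [IsFiniteMeasure μ] (K : CurvField M)
      (κ : ℝ), 0 ≤ κ → (∀ p, HyperLE (K.R p) κ) →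
      Integrable K.gbc μ → roundGB κ * μ.real Set.univ ≤ -∫ p, K.gbc p ∂μ) := by
  have h1 : ∀ (V : Type) [NormedAddCommGroup V] [InnerProductSpace ℝ V]
      (e : OrthonormalBasis (Fin 6) ℝ V) (R : V → V → V → V → ℝ), AlgCurv R →
      ∀ κ : ℝ, 0 ≤ κ → HyperLE R κ → Hopf6.gbc e R ≤ -(roundGB κ) :=
    fun V _ _ e R hR κ hκ h => hyper_point e hR hκ h
  refine ⟨h1, ?_, ?_, ?_⟩
  · intro V _ _ e R hR l m s A hA hlm hκ
    have h2 : HyperLE R (l - (l + m) * (1 - s)) := fun H hH =>
      hyper_of_form e hlm A hA.skew hA.norm hA.rank hA.bound H hH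
    exact ⟨h2, h1 V e R hR _ hκ h2⟩
  · intro V _ _ e J hJ c hc hc'
    have h2 : HyperLE (model J c) (1 - 5 * c) := fun H hH => model_hyper e hJ hc H hH
    exact ⟨model_curv hJ c, h2, h1 V e _ (model_curv hJ c) _ (by linarith) h2, model_top e hJ c⟩
  · intro M _ μ _ K κ hκ h hint
    have h2 : ∀ p, K.gbc p ≤ -(roundGB κ) := fun p => h1 _ (K.e p) (K.R p) (K.curv p) κ hκ (h p)
    have h3 : ∫ p, K.gbc p ∂μ ≤ ∫ _, -(roundGB κ) ∂μ :=
      integral_mono hint (integrable_const _) h2
    rw [integral_const, smul_eq_mul] at h3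
    linarith

end Pool.Agent.Results.MP_9d0d86_gt.HyperplaneCondition
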